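import Pool.Agent.Helper31.OWN.Hyper

set_option autoImplicit false

/-!
# MP_546510_pr : first-order asymptotics of the critical probability of hypercube bootstrap
percolation for all thresholds `r(n)` with `(log n)^2 = o(r(n))` and `r(n) = o(n)`
-/

namespace Pool.Agent.Results.MP_546510_pr.SlowThresholds

open Filter Asymptotics Pool.Agent.Helper31.OWN

/-- If `(log n)^2 = o(r(n))` and `r(n) = o(n)` then `pc(Q_n, r(n)) / (r(n) / n)` tends to `1`;
in particular `pc(Q_n, ⌈n^a⌉) / n^(a-1)` tends to `1` for every `0 < a < 1`. -/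
theorem result :
    (∀ r : ℕ → ℕ,
      (fun n : ℕ => (Real.log n) ^ 2) =o[atTop] (fun n => (r n : ℝ)) →
      (fun n : ℕ => (r n : ℝ)) =o[atTop] (fun n : ℕ => (n : ℝ)) →
      Tendsto (fun n : ℕ => pc n (r n) / ((r n : ℝ) / n)) atTop (nhds 1)) ∧
    (∀ a : ℝ, 0 < a → a < 1 →
      Tendsto (fun n : ℕ => pc n ⌈(n : ℝ) ^ a⌉₊ / (n : ℝ) ^ (a - 1)) atTop (nhds 1)) :=
  ⟨fun _ h1 h2 => main_general h1 h2, fun _ h0 h1 => main_pow h0 h1⟩

end Pool.Agent.Results.MP_546510_pr.SlowThresholds
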